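import Pool.Agent.Helper69.RN.St
import Pool.Agent.Helper97.W.PRE

/-! RING NOISE, module BR: rich prefixes along most paths give non-atomic levels of density `γ / 2`. -/

set_option autoImplicit false

namespace Pool.Agent.Helper15.RN

open Finset Pool.Agent.Helper69.RK Pool.Agent.Helper61.GL Pool.Agent.Helper46.WF Pool.Agent.Helper97.WF
  Pool.Agent.Helper92.W Pool.Agent.Helper69.RN

section

variable {Ω α : Type} [Fintype Ω]

theorem br_srp (μ : Ω → ℝ) (hm : ∑ ω, μ ω = 1) (f : Ω → α) (ω : Ω) :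
    srp μ f (fun _ => ()) ω = Su μ f ω := by
  classical
  unfold srp Su
  have e1 : pr μ (fun _ => ()) ω = 1 := by
    rw [e1_pr_eq]
    simp [hm]
  have e2 : pr μ (fun ω' => (f ω', ())) ω = pr μ f ω := by
    rw [e1_pr_eq, e1_pr_eq]
    apply sum_congr rfl
    intro ω' _
    by_cases h : f ω' = f ω
    · simp [h]
    · simp [h]
  rw [e1, e2, Real.logb_one, zero_sub]

omit [Fintype Ω] in
theorem br_ref (μ : Ω → ℝ) (v : Ω → ℝ) : Ref μ (fun l ω => fl l (v ω)) :=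
  pre_ref0 μ (fun ω _ => v ω)

theorem br_Nb (μ : Ω → ℝ) (hμ : ∀ ω, 0 ≤ μ ω) (v : Ω → ℝ) (R : ℕ) :
    Nb μ (fun l ω => fl l (v ω)) (2 ^ R) R :=
  pre_Nb0 μ hμ (fun ω _ => v ω) R

theorem br_ew_le (μ : Ω → ℝ) (hμ : ∀ ω, 0 ≤ μ ω) (v : Ω → ℝ) (R l : ℕ) (ω : Ω) (hω : μ ω ≠ 0) :
    ew μ (fun l ω => fl l (v ω)) R l ω ≤ R := by
  have h := pre_ew_le μ hμ (fun l ω => fl l (v ω)) (2 ^ R) (by positivity) R (br_Nb μ hμ v R) l ω hω
  rwa [Real.logb_pow, Real.logb_self_eq_one (by norm_num), mul_one] at h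

/-- an atomic cell has small local entropy -/
theorem br_atomic (μ : Ω → ℝ) (hμ : ∀ ω, 0 ≤ μ ω) (v : Ω → ℝ) (ρ l : ℕ) (a : ℝ) (ω : Ω) (hω : μ ω ≠ 0)
    (h : ¬ NA μ v ρ a l ω) : ew μ (fun l ω => fl l (v ω)) ρ l ω ≤ 3 + a * ρ := by
  classical
  unfold NA at h
  push Not at h
  obtain ⟨x, hx⟩ := h
  have e1 : ew μ (fun l ω => fl l (v ω)) ρ l ω =
      Hh (cw μ (fun ω' => fl l (v ω')) ω) (fun ω' => fl (l + ρ) (v ω')) := by
    rw [pre_Hh_cw μ hμ _ _ ω hω]
    exact (LH_eq_ew μ hμ (fun l ω => fl l (v ω)) (br_ref μ v) ρ l ω).symm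
  rw [e1]
  have hw : ∀ ω', 0 ≤ cw μ (fun ω' => fl l (v ω')) ω ω' := fun ω' => cw_nonneg μ _ hμ ω ω'
  have hs : ∑ ω', cw μ (fun ω' => fl l (v ω')) ω ω' = 1 := cw_sum μ _ hμ ω hω
  have hp : (0 : ℝ) < 2 ^ (l + ρ) := by positivity
  have h1 := Hh_exc (cw μ (fun ω' => fl l (v ω')) ω) hw hs (fun ω' => fl (l + ρ) (v ω'))
    (fun ω' => |v ω' - x| ≤ (1 / 2 : ℝ) ^ (l + ρ))
    (Icc (fl (l + ρ) x - 1) (fl (l + ρ) x + 2))
    (Ico (2 ^ ρ * fl l (v ω)) (2 ^ ρ * (fl l (v ω) + 1))) (N1 := 4) (N2 := 2 ^ ρ) (δ := a) (by norm_num)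
    (one_le_pow₀ (by norm_num)) ?_ ?_ ?_ ?_ ?_
  · rw [Real.logb_pow, Real.logb_self_eq_one (by norm_num), mul_one] at h1
    have e4 : Real.logb 2 4 = 2 := by
      rw [show (4 : ℝ) = 2 ^ 2 by norm_num, Real.logb_pow, Real.logb_self_eq_one (by norm_num)]
      norm_num
    rw [e4] at h1
    linarith
  · intro ω' _ hA
    have h2 : |(2 : ℝ) ^ (l + ρ) * v ω' - 2 ^ (l + ρ) * x| ≤ 1 := by
      rw [← mul_sub, abs_mul, abs_of_pos hp]
      calc (2 : ℝ) ^ (l + ρ) * |v ω' - x| ≤ 2 ^ (l + ρ) * (1 / 2 : ℝ) ^ (l + ρ) :=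
            mul_le_mul_of_nonneg_left hA hp.le
        _ = 1 := by rw [← mul_pow]; norm_num
    obtain ⟨h3, h4⟩ := abs_le.mp h2
    show ⌊(2 : ℝ) ^ (l + ρ) * v ω'⌋ ∈ Icc (⌊(2 : ℝ) ^ (l + ρ) * x⌋ - 1) (⌊(2 : ℝ) ^ (l + ρ) * x⌋ + 2)
    have h5 := Int.floor_le ((2 : ℝ) ^ (l + ρ) * x)
    have h6 := Int.lt_floor_add_one ((2 : ℝ) ^ (l + ρ) * x)
    rw [mem_Icc]
    constructor
    · rw [Int.le_floor]
      push_cast
      linarith
    · have : ⌊(2 : ℝ) ^ (l + ρ) * v ω'⌋ < ⌊(2 : ℝ) ^ (l + ρ) * x⌋ + 3 := by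
        rw [Int.floor_lt]
        push_cast
        linarith
      omega
  · rw [Int.card_Icc]
    have e : (fl (l + ρ) x + 2 + 1 - (fl (l + ρ) x - 1)).toNat = 4 := by
      have : fl (l + ρ) x + 2 + 1 - (fl (l + ρ) x - 1) = 4 := by ring
      rw [this]
      rfl
    rw [e]
    norm_num
  · intro ω' hω'
    obtain ⟨hG, _⟩ := cw_ne_zero μ _ hω'
    exact pre_sub l ρ (fun _ => v ω') (fun _ => v ω) (by funext i; exact hG) 0
  · rw [Int.card_Ico]
    have e : 2 ^ ρ * (fl l (v ω) + 1) - 2 ^ ρ * fl l (v ω) = 2 ^ ρ := by ring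
    rw [e]
    have : ((2 : ℤ) ^ ρ).toNat = 2 ^ ρ := by norm_cast
    rw [this]
    push_cast
    exact le_rfl
  · refine le_trans (le_of_eq ?_) hx.le
    congr 1
    funext ω'
    exact propext not_le

open Classical in
/-- the sum of the local entropies -/
theorem br_sum (μ : Ω → ℝ) (hμ : ∀ ω, 0 ≤ μ ω) (v : Ω → ℝ) (ρ : ℕ) (a : ℝ) (ω : Ω) (hω : μ ω ≠ 0) (N : ℕ)
    (ha : 0 ≤ a) :
    ∑ l ∈ range N, ew μ (fun l ω => fl l (v ω)) ρ l ω ≤
      ρ * (((range N).filter (fun l => NA μ v ρ a l ω)).card : ℝ) + (3 + a * ρ) * N := by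
  have h1 : ∀ l ∈ range N, ew μ (fun l ω => fl l (v ω)) ρ l ω ≤
      ρ * (if NA μ v ρ a l ω then (1 : ℝ) else 0) + (3 + a * ρ) := by
    intro l _
    have h3 : 0 ≤ a * (ρ : ℝ) := by positivity
    by_cases h : NA μ v ρ a l ω
    · rw [if_pos h]
      have := br_ew_le μ hμ v ρ l ω hω
      linarith
    · rw [if_neg h]
      have := br_atomic μ hμ v ρ l a ω hω h
      linarith
  refine (sum_le_sum h1).trans (le_of_eq ?_)
  rw [sum_add_distrib, ← mul_sum, sum_const, card_range, nsmul_eq_mul, sum_boole]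
  ring

end

theorem st_BR : ST_BR := by
  classical
  intro γ hγ hγ1
  obtain ⟨ρ, hρ⟩ : ∃ ρ : ℕ, 16 / γ < ρ := exists_nat_gt _
  have hρ1 : 16 ≤ γ * ρ := by
    rw [div_lt_iff₀ hγ] at hρ
    linarith
  have hρ0 : (1 : ℝ) ≤ ρ := by
    have : γ * ρ ≤ 1 * ρ := mul_le_mul_of_nonneg_right hγ1 (Nat.cast_nonneg ρ)
    linarith
  refine ⟨ρ, γ / 16, by positivity, by linarith, ?_⟩
  intro ε hε
  set δ : ℝ := ε / 8 with hδ
  have hδ0 : 0 < δ := by positivity
  obtain ⟨J, hJ⟩ : ∃ J : ℕ, 2 / δ + 1 < J := exists_nat_gt _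
  have hJ0 : (0 : ℝ) < J := by
    have : 0 < 2 / δ := by positivity
    linarith
  set M : ℝ := 2 ^ (ρ + 7) with hM
  have hM0 : 0 ≤ M := by positivity
  set C : ℝ := 2 * ρ * (5 * 2 ^ ρ) with hC
  have hC0 : 0 ≤ C := by positivity
  obtain ⟨n0, hn0⟩ : ∃ n0 : ℕ, 2 / δ + 4 * M / (δ * ε) + 4 * J * C / (δ ^ 2 * ε) + 1 < n0 :=
    exists_nat_gt _
  refine ⟨δ, hδ0, n0, ?_⟩
  intro n hn Ω _ μ v hμ hm hv hH
  have hm' : ∑ ω, μ ω = 1 := hm
  have hn' : (n0 : ℝ) ≤ n := by exact_mod_cast hn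
  have a1 : 0 ≤ 2 / δ := by positivity
  have a2 : 0 ≤ 4 * M / (δ * ε) := by positivity
  have a4 : 0 ≤ 4 * J * C / (δ ^ 2 * ε) := by positivity
  have hn1 : (1 : ℝ) ≤ n := by linarith
  have hnp : (0 : ℝ) < n := by linarith
  have b1 : 2 ≤ δ * n := by
    have : 2 / δ ≤ n := by linarith
    rw [div_le_iff₀ hδ0] at this
    linarith
  have b2 : M / (δ * n) ≤ ε / 4 := by
    have : 4 * M / (δ * ε) ≤ n := by linarith
    rw [div_le_iff₀ (by positivity)] at this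
    rw [div_le_iff₀ (by positivity)]
    linarith
  have b4 : J * (n * C / (δ * n) ^ 2) ≤ ε / 4 := by
    have : 4 * J * C / (δ ^ 2 * ε) ≤ n := by linarith
    rw [div_le_iff₀ (by positivity)] at this
    rw [← mul_div_assoc, div_le_iff₀ (by positivity)]
    have h1 := mul_le_mul_of_nonneg_right this hnp.le
    have e1 : ε / 4 * (δ * n) ^ 2 = n * (δ ^ 2 * ε) * n / 4 := by ring
    rw [e1]
    have e2 : J * (n * C) = 4 * J * C * n / 4 := by ring
    rw [e2]
    linarith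
  -- the grid
  set q : ℕ := ⌊δ * n⌋₊ with hq
  have hq1 : (q : ℝ) ≤ δ * n := Nat.floor_le (by positivity)
  have hq2 : δ * n < q + 1 := Nat.lt_floor_add_one _
  have hq3 : 1 ≤ q := by
    have : (1 : ℝ) < q := by linarith
    have : (1 : ℕ) < q := by exact_mod_cast this
    omega
  have hq4 : δ / 2 * n ≤ q := by linarith
  have hjJ : ∀ j : ℕ, j * q ≤ n → j < J := by
    intro j hj
    have h1 : (j : ℝ) * q ≤ n := by exact_mod_cast hj
    have h2 : (j : ℝ) * (δ / 2 * n) ≤ n := by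
      have := mul_le_mul_of_nonneg_left hq4 (Nat.cast_nonneg j : (0 : ℝ) ≤ (j : ℝ))
      linarith
    have h3 : (j : ℝ) * (δ / 2) ≤ 1 := by
      have : (j : ℝ) * (δ / 2) * n ≤ 1 * n := by linarith
      exact le_of_mul_le_mul_right this hnp
    have h4 : (j : ℝ) ≤ 2 / δ := by
      rw [le_div_iff₀ hδ0]
      linarith
    have h5 : (j : ℝ) < J := by linarith
    exact_mod_cast h5
  have hc := br_ref μ v
  have hNb := br_Nb μ hμ v ρ
  -- first event
  have hA1 : Pw μ (fun ω => δ * n < Su μ (fun ω' => fl ρ (v ω')) ω) ≤ ε / 4 := by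
    refine le_trans (pre_up μ hμ _ (Icc (-(32 * 2 ^ ρ) : ℤ) (32 * 2 ^ ρ))
      ?_ (δ * n) (by positivity)) (le_trans ?_ b2)
    · intro ω _
      exact pre_range ρ (v ω) ((hv ω).trans (by norm_num))
    · exact div_le_div_of_nonneg_right (pre_card ρ) (by positivity)
  have hA : Pw μ (fun ω => (∃ r : ℕ, r ≤ n ∧
      srp μ (fun ω' => fl r (v ω')) (fun _ => ()) ω < γ * r - δ * n) ∨
        δ * n < Su μ (fun ω' => fl ρ (v ω')) ω) ≤ δ + ε / 4 :=
    (Pw_or μ hμ _ _).trans (add_le_add hH hA1)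
  -- the events at the grid points
  set E : ℕ → Ω → Prop := fun j ω => j * q ≤ n ∧
      δ * n < |∑ l ∈ Ico 0 (j * q), dw μ (fun l ω => fl l (v ω)) ρ l ω| with hE
  have hEj : ∀ j, j < J → Pw μ (E j) ≤ n * C / (δ * n) ^ 2 := by
    intro j _
    by_cases hj : j * q ≤ n
    · refine le_trans (Pw_mono μ hμ (B := fun ω =>
        δ * n < |∑ l ∈ Ico 0 (j * q), dw μ (fun l ω => fl l (v ω)) ρ l ω|) ?_) ?_
      · intro ω _ h
        exact h.2
      · refine le_trans (cheb μ hμ hm' _ hc (2 ^ ρ) (by positivity) ρ hNb 0 (j * q) (δ * n) (by positivity)) ?_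
        apply div_le_div_of_nonneg_right _ (by positivity)
        apply mul_le_mul_of_nonneg_right _ hC0
        rw [Nat.sub_zero]
        exact_mod_cast hj
    · refine le_trans (Pw_mono μ hμ (B := fun _ => False) ?_) ?_
      · intro ω _ h
        exact hj h.1
      · unfold Pw
        simp only [if_false, sum_const_zero]
        positivity
  have hU := den_union μ hμ _ E J _ _ hA hEj
  refine le_trans (Pw_mono μ hμ ?_) (hU.trans ?_)
  · intro ω hω hbad
    by_contra hgood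
    push Not at hgood
    obtain ⟨⟨g0, g1⟩, g2⟩ := hgood
    obtain ⟨N, hN, hlt⟩ := hbad
    have hjn : N / q * q ≤ N := Nat.div_mul_le_self N q
    have hjn2 := Nat.lt_div_mul_add (show 0 < q from hq3) (a := N)
    have hj1 : N / q * q ≤ n := hjn.trans hN
    have g3 := g2 (N / q) (hjJ _ hj1)
    rw [hE] at g3
    simp only [not_and, not_lt] at g3
    have g5 := g3 hj1
    generalize N / q * q = N' at *
    have g4 := g0 N' hj1
    rw [br_srp μ hm'] at g4
    have h1 : (((range N').filter (fun l => NA μ v ρ (γ / 16) l ω)).card : ℝ) ≤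
        (((range N).filter (fun l => NA μ v ρ (γ / 16) l ω)).card : ℝ) := by
      have : ((range N').filter (fun l => NA μ v ρ (γ / 16) l ω)).card ≤
          ((range N).filter (fun l => NA μ v ρ (γ / 16) l ω)).card := by
        apply card_le_card
        apply filter_subset_filter
        intro l
        simp only [mem_range]
        omega
      exact_mod_cast this
    have h2 : ∑ l ∈ Ico 0 N', dw μ (fun l ω => fl l (v ω)) ρ l ω =
        ∑ l ∈ Ico 0 N', (Su μ (fun ω' => fl (l + ρ) (v ω')) ω - Su μ (fun ω' => fl l (v ω')) ω) -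
          ∑ l ∈ range N', ew μ (fun l ω => fl l (v ω)) ρ l ω := by
      rw [range_eq_Ico, ← sum_sub_distrib]
      apply sum_congr rfl
      intro l _
      rfl
    have h3 := den_tele (fun l => Su μ (fun ω' => fl l (v ω')) ω) ρ 0 N' (Nat.zero_le _)
    simp only [Nat.zero_add] at h3
    rw [h3] at h2
    have h4 : ∑ i ∈ range ρ, (Su μ (fun ω' => fl N' (v ω')) ω - Su μ (fun ω' => fl ρ (v ω')) ω) ≤
        ∑ i ∈ range ρ, (Su μ (fun ω' => fl (N' + i) (v ω')) ω - Su μ (fun ω' => fl i (v ω')) ω) := by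
      apply sum_le_sum
      intro i hi
      rw [mem_range] at hi
      have k1 := Su_le μ hμ (fun l ω => fl l (v ω)) hc (Nat.le_add_right N' i) ω hω
      have k2 := Su_le μ hμ (fun l ω => fl l (v ω)) hc hi.le ω hω
      linarith
    rw [sum_const, card_range, nsmul_eq_mul] at h4
    have h6 := (abs_le.mp g5).2
    have h7 : (N : ℝ) ≤ N' + q := by
      have : N ≤ N' + q := by omega
      exact_mod_cast this
    have h5 := br_sum μ hμ v ρ (γ / 16) ω hω N' (by positivity)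
    set K : ℝ := (((range N').filter (fun l => NA μ v ρ (γ / 16) l ω)).card : ℝ) with hK
    have h8 : (ρ : ℝ) * (γ * N' - 2 * (δ * n)) ≤
        ρ * (Su μ (fun ω' => fl N' (v ω')) ω - Su μ (fun ω' => fl ρ (v ω')) ω) := by
      apply mul_le_mul_of_nonneg_left _ (by linarith)
      linarith
    have h9 : (3 + γ / 16 * ρ) * (N' : ℝ) ≤ ρ * (γ / 2 * N') := by
      have : 3 + γ / 16 * ρ ≤ ρ * (γ / 2) := by linarith
      have h10 := mul_le_mul_of_nonneg_right this (Nat.cast_nonneg N' : (0 : ℝ) ≤ (N' : ℝ))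
      linarith
    have k : δ * n ≤ ρ * (δ * n) := by
      have : 0 < δ * n := by positivity
      nlinarith
    have h11 : (ρ : ℝ) * (γ / 2 * N' - 3 * (δ * n)) ≤ ρ * K := by linarith
    have h12 : γ / 2 * N' - 3 * (δ * n) ≤ K := le_of_mul_le_mul_left h11 (by linarith)
    have h13 : γ / 2 * N ≤ γ / 2 * N' + δ * n := by
      have h14 : γ / 2 * (N : ℝ) ≤ γ / 2 * (N' + q) := mul_le_mul_of_nonneg_left h7 (by positivity)
      have h15 : γ / 2 * (q : ℝ) ≤ 1 * q := mul_le_mul_of_nonneg_right (by linarith) (Nat.cast_nonneg q)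
      linarith
    have h16 : 4 * (δ * n) ≤ ε * n := by
      have : 8 * δ = ε := by rw [hδ]; ring
      rw [← this]
      have : 0 < δ * n := by positivity
      linarith
    linarith
  · have : δ = ε / 8 := hδ
    linarith

end Pool.Agent.Helper15.RN
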